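import Pool.Agent.Helper16.BZ.Stmts

open Finset Filter MeasureTheory Topology
open scoped ComplexConjugate InnerProductSpace

namespace Pool.Agent.Helper16.BZ

open Pool.Agent.Helper16.AZ (T E Op mm Eig PP ST_VDH ST_MSR ST_MRF ST_FPV ST_TLR)

/-- the linear part of the affine map -/
noncomputable def amp_hom {r : ℕ} (A : Matrix (Fin r) (Fin r) ℤ) : T r →+ T r where
  toFun x := fun i => ∑ j, A i j • x j
  map_zero' := by
    funext i
    simp
  map_add' x y := by
    funext i
    simp only [Pi.add_apply, smul_add, Finset.sum_add_distrib]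

theorem amp_cont {r : ℕ} (A : Matrix (Fin r) (Fin r) ℤ) : Continuous (amp_hom A) := by
  apply continuous_pi
  intro i
  show Continuous fun x : T r => ∑ j, A i j • x j
  apply continuous_finsetSum
  intro j _
  exact (continuous_apply j).zsmul (A i j)

theorem st_AMP : ST_AMP := by
  intro r A β S hS
  have heq : ∀ x, S x = amp_hom A x + β := by
    intro x
    funext i
    exact hS x i
  have hsurj : Function.Surjective (amp_hom A) := by
    intro y
    obtain ⟨x, hx⟩ := S.surjective (y + β)
    refine ⟨x, ?_⟩
    have h1 := heq x
    rw [hx] at h1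
    exact (add_right_cancel h1).symm
  have h1 : MeasurePreserving (amp_hom A) (mm r) (mm r) := by
    apply AddMonoidHom.measurePreserving
    · exact amp_cont A
    · exact hsurj
    · rfl
  have h2 : MeasurePreserving (fun θ : T r => θ + β) (mm r) (mm r) :=
    measurePreserving_add_right (mm r) β
  have h3 : MeasurePreserving ((fun θ : T r => θ + β) ∘ (amp_hom A)) (mm r) (mm r) := h2.comp h1
  have h4 : ((fun θ : T r => θ + β) ∘ (amp_hom A)) = (S : T r → T r) := by
    funext x
    exact (heq x).symm
  rw [h4] at h3
  exact h3

end Pool.Agent.Helper16.BZ
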