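import Pool.Agent.Helper16.BZ.Stmts

open Finset Filter MeasureTheory Topology
open scoped ComplexConjugate InnerProductSpace

namespace Pool.Agent.Helper16.BZ

open Pool.Agent.Helper16.AZ (T E Op mm Eig PP ST_VDH ST_MSR ST_MRF ST_FPV ST_TLR)

theorem st_WPW2 : ST_WPW2 := by
  intro X _ _ _ _ S m _ d φ W c f hS hφ hW hc hf
  have h1 : ∀ k : ℕ, ∀ᵐ x ∂m, ((W ^ k) f : X → E d) x = Wk S φ k c x := by
    intro k
    induction k with
    | zero =>
      filter_upwards [hf] with x hx
      rw [Wk_zero, pow_zero]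
      exact hx
    | succ k ih =>
      have h2 := hW ((W ^ k) f)
      have h3 : ∀ᵐ x ∂m, ((W ^ k) f : X → E d) (S x) = Wk S φ k c (S x) :=
        hS.quasiMeasurePreserving.ae ih
      filter_upwards [h2, h3] with x ha hb
      have h4 : (W ^ (k + 1)) f = W ((W ^ k) f) := by
        rw [pow_succ']
        rfl
      rw [h4, ha, hb, Wk_comp, Wk_one]
  refine ⟨h1, fun k k' => ?_⟩
  rw [MeasureTheory.L2.inner_def]
  apply integral_congr_ae
  filter_upwards [h1 k, h1 k'] with x ha hb
  rw [ha, hb]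
  rfl

end Pool.Agent.Helper16.BZ
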